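import Pool.Agent.Run7.h702.CT.C
import Pool.Agent.Results.MP_c1dca2_ag.FamiliesOverExtensions

/-!
# Sections of fundamental groups: the members of families near ALL the terms of almost every Collatz trajectory

The situation is that of the starting file `FamiliesOverExtensions`: `E : y² = x³ + a x + b` is an elliptic curve over a number
field `K` whose Tate-Shafarevich group over `K` is killed by some `M₀ ≥ 1`, and `X` is a closed subset of `E ^ r × ℙ ^ n` over
`K`, a family of closed subsets `X_y ⊆ E ^ r` with parameter space `ℙ ^ n`; for all `1 ≤ m ≤ M` and all complex points `S` of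
`E ^ r` there are at most `D` points `y` such that `S` is a sum of `m` points of `X_y`. Call `y` in `ℙ ^ n (K)` good
(`NoLocalSection`) if for ALL extensions `F` of `K` of degree at most `M` no smooth curve `C` over `F` with a map to `X_y` has
a section of the map from `π₁(C)` to the absolute Galois group of `F` which is given over `F_w` by a point (or a cusp) of `C`
for all finite places `w` of `F`.

Let `G` have steps bounded below by a positive constant and at most polynomial growth, for example `G v = c v ^ d`, and let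
`0 ≤ κ < 1`. There is `η > 0` with: for every `B` there is `K` such that for all `Y ≥ 2` and `N`, for all `m ≤ N` but at most
`K N / (log Y) ^ B`, the trajectory of `m` under the Collatz map (`n / 2`, `3 n + 1`) has a value smaller than `Y`, and for
EVERY term `v` before it and ALL `1 ≤ c ≤ v ^ η` ALL points `y` in `ℙ ^ n (K)` with a height `H(y)` such that
`|H(y) - c G v| ≤ v ^ (κ + η)` are good. So if `F` tends to infinity, however slowly, then for almost every `m` this holds for
all the terms of the trajectory of `m` down to its first value smaller than `F m`. There are about `H ^ (n + 1)` points of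
relative height at most `H`, and the windows have nearly the length `v`.

The starting theorem says that `O(H ^ ε)` points of height at most `H` are not good. The terms of the trajectory of a random
integer are not distributed like random integers of their size. The tool is the avoidance of thin sets by all the terms of
almost every trajectory (starting theorem; Tao's theorem in natural density), in the form of `Run7/h702/CT` (multiples and
windows).
-/

set_option autoImplicit false

namespace Pool.Agent.Results.MP_c1dca2_ag.CollatzTerms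

open MvPolynomial NumberField IsDedekindDomain Pool.Agent.TH954 Pool.Agent.W620.SC
open Filter Topology
open Pool.Agent.Results.MP_c1dca2_ag.FamiliesOverExtensions (curve MultiHomog IsSum MemberOver)

open scoped LinearAlgebra.Projectivization

/-- The Collatz map. -/
def collatz (n : ℕ) : ℕ := if n % 2 = 0 then n / 2 else 3 * n + 1

/-- The trajectory of `m` takes a value smaller than `Y`, and EVERY term `v` before it has the property `P`. -/
def AllTerms (P : ℕ → Prop) (Y : ℝ) (m : ℕ) : Prop :=
  ∃ k : ℕ, ((collatz^[k] m : ℕ) : ℝ) < Y ∧ ∀ j < k, P (collatz^[j] m)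

/-- `P` holds for all the terms of almost every trajectory: (1) for every `B` there is `K` such that `AllTerms P Y m` holds, for
all `Y ≥ 2` and `N`, for all the `m ∈ [1, N]` but at most `K N / (log Y)^B`; (2) for every function `F` which tends to infinity
the density of the `m` with `AllTerms P (F m) m` is `1`. -/
def OnAllTerms (P : ℕ → Prop) : Prop :=
  (∀ B : ℕ, ∃ K : ℝ, ∀ Y : ℝ, 2 ≤ Y → ∀ N : ℕ,
    (Set.ncard {m : ℕ | 1 ≤ m ∧ m ≤ N ∧ ¬ AllTerms P Y m} : ℝ) ≤ K * N / Real.log Y ^ B) ∧
  ∀ F : ℕ → ℝ, Tendsto F atTop atTop →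
    Tendsto (fun N : ℕ => (Set.ncard {m : ℕ | 1 ≤ m ∧ m ≤ N ∧ AllTerms P (F m) m} : ℝ) / N) atTop (𝓝 1)

/-- The steps of `G` are at least a positive constant, and `G` grows at most like `v ^ d`, `d ≥ 1`. -/
structure Expanding (G : ℕ → ℝ) (d : ℝ) : Prop where
  one_le : 1 ≤ d
  step : ∃ a : ℝ, 0 < a ∧ ∀ v : ℕ, 1 ≤ v → a ≤ G (v + 1) - G v
  growth : ∃ C : ℝ, ∀ v : ℕ, 1 ≤ v → G v ≤ C * (v : ℝ) ^ d

/-- `x` is near one of the small multiples of `G v`. -/
def Near (G : ℕ → ℝ) (κ η : ℝ) (v : ℕ) (x : ℝ) : Prop :=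
  ∃ a : ℕ, 1 ≤ a ∧ (a : ℝ) ≤ (v : ℝ) ^ η ∧ |x - a * G v| ≤ (v : ℝ) ^ (κ + η)

theorem ex_of {G : ℕ → ℝ} {d : ℝ} (h : Expanding G d) : Pool.Agent.N733.TG.Expanding G d := ⟨h.one_le, h.step, h.growth⟩

theorem ex_pow {a d : ℝ} (ha : 0 < a) (hd : 1 ≤ d) : Expanding (fun v => a * (v : ℝ) ^ d) d := by
  obtain ⟨h1, h2, h3⟩ := Pool.Agent.N733.TG.expanding_pow ha hd
  exact ⟨h1, h2, h3⟩

theorem on_of {P : ℕ → Prop} (h : Run7.h702.CT.OnAllTerms P) : OnAllTerms P := h

/-- `y` is good: over no extension `F` of `K` of degree at most `M` a smooth curve with a map to the member `X_y` has a section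
which is given by a point (or a cusp) over all completions of `F`. -/
def NoLocalSection {K : Type} [Field K] [NumberField K] (a b : 𝓞 K) {r n q : ℕ}
    (g : Fin q → MvPolynomial ((Fin r × Fin 3) ⊕ Fin (n + 1)) (𝓞 K)) (M : ℕ) (y : ℙ K (Fin (n + 1) → K)) : Prop :=
  ∀ (F : Type) [Field F] [NumberField F] [Algebra K F] (_ : Module.finrank K F ≤ M)
    (L Ω N A : Type) [Field L] [Field Ω] [Field N] [Field A] [Algebra F L] [Algebra L Ω]
    [Algebra F Ω] [Algebra L N] [Algebra F N] [Algebra F A] [IsScalarTower F L Ω]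
    [IsScalarTower F L N] [IsAlgClosure L Ω] [IsAlgClosure F A]
    (U : Set (ValuationSubring L)) (_ : ∀ O ∈ U, ∀ c : F, algebraMap F L c ∈ O)
    (e : N →ₐ[L] Ω) (_ : unramified L Ω U ≤ e.fieldRange)
    (P : Fin r → ((curve (algebraMap K F a) (algebraMap K F b)).baseChange L).toAffine.Point)
    (_ : OnX (MemberOver g F y) (fun i => crd (P i))) (s : GalSection F L N A),
    ¬ ∀ w : HeightOneSpectrum (𝓞 F),
      ∃ p : Plc F N (AlgebraicClosure (w.adicCompletion F)), s.GivenBy (w.adicCompletion F) p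

/-- **Sections in families near all the terms of almost every Collatz trajectory.** -/
theorem result (K : Type) [Field K] [NumberField K] (a b : 𝓞 K)
    (hE : 4 * a ^ 3 + 27 * b ^ 2 ≠ 0) (M₀ : ℕ) (hM1 : 1 ≤ M₀)
    (hM : ShaKilledBy (curve (a : K) (b : K)) M₀) (r n q : ℕ)
    (g : Fin q → MvPolynomial ((Fin r × Fin 3) ⊕ Fin (n + 1)) (𝓞 K))
    (d : Fin q → Fin r → ℕ) (deg : Fin q → ℕ) (hg : ∀ e, MultiHomog (g e) (d e) (deg e))
    (σ : K →+* ℂ) (M D : ℕ)
    (hX : ∀ m, 1 ≤ m → m ≤ M → ∀ S : Fin r → (curve (σ a) (σ b)).toAffine.Point,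
      {y : ℙ ℂ (Fin (n + 1) → ℂ) | IsSum σ a b g m S y.rep}.encard ≤ D) :
    (∀ (G : ℕ → ℝ) (d' : ℝ), Expanding G d' → ∀ κ : ℝ, 0 ≤ κ → κ < 1 → ∃ η : ℝ, 0 < η ∧
      OnAllTerms (fun v => ∀ y : ℙ K (Fin (n + 1) → K), Near G κ η v y.mulHeight → NoLocalSection a b g M y)) ∧
    ∀ α d : ℝ, 0 < α → 1 ≤ d → Expanding (fun v => α * (v : ℝ) ^ d) d := by
  refine ⟨fun G d' hG κ hκ hκ1 => ?_, fun α d hα hd => ex_pow hα hd⟩
  obtain ⟨η, hη, h2⟩ := Run7.h702.CT.good (fun _ : ℙ K (Fin (n + 1) → K) => True) (NoLocalSection a b g M)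
    (fun y => y.mulHeight) (ex_of hG) (s := 0) (κ := κ) le_rfl hκ (by rw [mul_zero, zero_add]; exact hκ1)
    (fun ε hε => by
      obtain ⟨C, hC⟩ := FamiliesOverExtensions.result K a b hE M₀ hM1 hM r n q g d deg hg σ M D hX ε hε
      refine ⟨C, fun X hX1 => ?_⟩
      obtain ⟨Z, hZ, hZ2⟩ := hC X hX1
      have hsub : {t : ℙ K (Fin (n + 1) → K) | (True ∧ ¬ NoLocalSection a b g M t) ∧ t.mulHeight ≤ X} ⊆
          (Z : Set (ℙ K (Fin (n + 1) → K))) := by
        rintro y ⟨⟨_, h1⟩, h3⟩
        by_contra hcon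
        exact h1 (hZ2 y h3 hcon)
      refine ⟨Z.finite_toSet.subset hsub, ?_⟩
      have h4 := Set.ncard_le_ncard hsub Z.finite_toSet
      rw [Set.ncard_coe_finset] at h4
      rw [zero_add]
      exact le_trans (by exact_mod_cast h4) hZ)
  refine ⟨η, hη, on_of (h2.imp (fun v hv y hN => ?_))⟩
  obtain ⟨c, hc1, hc2, hc3⟩ := hN
  exact hv c hc1 hc2 y trivial hc3

end Pool.Agent.Results.MP_c1dca2_ag.CollatzTerms
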