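import Pool.Agent.Run7.h375.SC.Thm

/-!
# The section conjecture over all extensions
-/

set_option autoImplicit false

namespace Pool.Agent.Results.MP_c1dca2_ag.FreeSteps

open Run7.h375.SC

/-- **The section conjecture over all extensions and free steps.** -/
theorem result {K Ω F N : Type} [Field K] [NumberField K] [Field Ω] [Algebra K Ω]
    [IsAlgClosure K Ω] [Field F] [Field N] [Algebra K F] [Algebra F N] [IsGalois F N]
    [Algebra K N] [Algebra Ω N] [IsScalarTower K F N] [IsScalarTower K Ω N]
    (K₀ : IntermediateField K Ω) [FiniteDimensional K K₀] (R : Set ℕ)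
    (m : (Gal(Ω/K) → Gal(N/F)) → ℤ) (hm : ∀ s, m s ≠ 0)
    (hm' : ∀ s t, SameGerm s t → m s = m t) :
    (∀ L : IntermediateField K Ω, FiniteDimensional K L → SectionConjecture F N L) ↔
      (∀ K' : IntermediateField K Ω,
        IsGaloisDegree (fun d => ∀ r : ℕ, r.Prime → r ∈ R → ¬ r ∣ d) K₀ K' →
        SectionConjecture F N K') ∧
      ∀ (s : Gal(Ω/K) → Gal(N/F)) (E L : IntermediateField K Ω), K₀ ≤ E →
        IsFreeStep R (m s) E L → GivenOrExtends E L s :=
  nf_main K₀ R m hm hm'

end Pool.Agent.Results.MP_c1dca2_ag.FreeSteps
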