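import Pool.Agent.Run7.h551.NC2
import Pool.Agent.TH377.Dyn.Main

/-!
# MP_c1dca2_ag: plane curves given by norm forms, with varying fields

Let `K` be a number field and `D ≥ 2`.  We consider the plane curves of degree `d` over `K`

  `X : ∏_ρ (A₀(ρ) x₀ + A₁(ρ) x₁ + A₂(ρ) x₂) = a Q(x₀, x₁, x₂)ⁿ`,

where the product is over the roots `ρ` of a polynomial `h ∈ K[T]` of degree `d`, the `A_j ∈ K[T]` are
arbitrary, `n | d` and `Q` is a form of degree `d/n` over `K`.  If `h` is irreducible and `E = K[T]/(h)`, then
the left side is the norm form `N_{E/K}(A₀ x₀ + A₁ x₁ + A₂ x₂)`, and the `A_j` are arbitrary elements of `E`.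
The `d` conjugate lines `A₀(ρ) x₀ + A₁(ρ) x₁ + A₂(ρ) x₂ = 0` meet `X` with multiplicities divisible by `n`; for
instance for `d = 4` and `n = 2` the curve is a plane quartic for which they are four conjugate
bitangents.  We only assume that `Q` does not vanish at the points of intersection of the conjugate
lines, which is part of the smoothness of `X`.

We prove for 100% of the pairs `(a, h)`, and for ALL `A_j`, all `n | d` divisible by `D`, all `Q` and ALL
finite extensions `L` of `K` whose degree is not divisible by `D`: `X` has no point over `L`, and the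
fundamental groups of `X_L`, of its open subcurves, and of all smooth curves (or varieties) over `L` that
dominate one of them have no section over `G_L`.  So the section conjecture holds for all these curves,
with both sides empty.  Here the field `E` varies together with `a`, and the members `(a, h)` are those of

1. a one-parameter family `(b(t), H(t, T))`, `t ∈ O_K`, where `b` has a simple root `θ` at which `H` keeps
   its degree and becomes separable, and some automorphism of `K̄` over `K(θ)` permutes the roots of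
   `H(θ, T)` in cycles of lengths divisible by `N = gcd(2, D) D` (for instance `b = t` and `H` a constant
   irreducible polynomial whose Galois group has such an element, a fixed field `E` and varying `a`; or `H`
   irreducible over `K(θ)` with the full symmetric group and `N | d`);
2. the family of all `(a, h)`, `a ∈ O_K`, `h = h₀ + h₁ T + … + h_d T^d`, `h_i ∈ O_K`, for every `d`
   divisible by `N`; here `h` is also irreducible of degree `d` for 100% of the vectors.

The exceptional `t`, or vectors, have density zero in boxes (with respect to any integral basis), and in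
a stronger sense: for every `ε > 0` there is an ideal `I ≠ 0` such that they lie in at most an
`ε`-proportion of the residue classes modulo `I`.

The fundamental group is described through valuations.  Let `U` be a smooth geometrically connected
curve over `k` with function field `F`, let `Ω` be an algebraic closure of `F`, and let `F_U` be the
maximal extension of `F` inside `Ω` which is unramified over the closed points of `U`, that is, over
their local rings, which are valuation rings of `F`.  Then `π₁(U) = Gal(F_U/F)`, and the map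
`π₁(U) → G_k` is the restriction of automorphisms to the algebraic closure of `k` in `Ω`.

Proof.  By the theorem of Chebotarev, for almost all members there is a prime `v` of `K` which divides
`a` exactly once and does not divide the leading coefficient of `h`, such that `h` is separable modulo
`v` with irreducible factors of degrees divisible by `N`.  Then the local theorem of the starting library
(`Pool.Agent.TH377.NC`, see `MP_e66f84_ag.NormCurvesAnyField`), which is extended here from the field `E` to
the algebra `K[T]/(h)`, is applied at `v`.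
-/

set_option autoImplicit false
set_option maxHeartbeats 400000

open Polynomial NumberField Filter Topology

namespace Pool.Agent.Results.MP_c1dca2_ag.NormCurvesVaryingFields

universe u v w x y z

section definitions

variable (k : Type u) (F : Type v) (Ω : Type w) [Field k] [Field F] [Field Ω] [Algebra k F]
  [Algebra F Ω] [Algebra k Ω]

/-- The inertia group of the valuation ring `W` of `Ω`, as a subgroup of `Gal(Ω/F)`: the
automorphisms of `Ω` over `F` that map `W` onto itself and act as the identity on its residue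
field. -/
noncomputable def inertia (W : ValuationSubring Ω) : Subgroup (Ω ≃ₐ[F] Ω) :=
  (W.inertiaSubgroup F).map (W.decompositionSubgroup F).subtype

/-- `F_U`, for a set `U` of valuation rings of `F`: the elements of `Ω` fixed by the inertia groups
of all valuation rings `W` of `Ω` with `W ∩ F ∈ U`.  If `Ω` is an algebraic closure of a field `F`
of characteristic zero, this is the maximal extension of `F` in `Ω` unramified over `U`. -/
noncomputable def unramified (U : Set (ValuationSubring F)) : IntermediateField F Ω :=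
  ⨅ W : {W : ValuationSubring Ω // W.comap (algebraMap F Ω) ∈ U},
    IntermediateField.fixedField (inertia F Ω W.1)

/-- The map `τ : M → M` acts as `σ : K → K` on the elements that the fields `K` and `M` have in
common when they are regarded as subfields of `Ω` through `i` and `j`. -/
def ActsAs {K M Ω : Type*} [Field K] [Field M] [Field Ω] (i : K →+* Ω) (j : M →+* Ω) (σ : K → K)
    (τ : M → M) : Prop :=
  ∀ c z, j z = i c → j (τ z) = i (σ c)

/-- Let `k ⊆ K ⊆ Ω` and `F ⊆ M ⊆ Ω` be fields.  A splitting of `Gal(M/F) → Gal(K/k)`: a continuous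
homomorphism `s` from `Gal(K/k)` to `Gal(M/F)` such that `s(σ)` acts as `σ` on the elements of
`K ∩ M`. -/
structure Splitting (K M : Type*) [Field K] [Field M] [Algebra k K] [Algebra F M] [Algebra K Ω]
    [Algebra M Ω] where
  /-- the homomorphism `Gal(K/k) → Gal(M/F)` -/
  toHom : (K ≃ₐ[k] K) →* (M ≃ₐ[F] M)
  cont : Continuous toHom
  compat : ∀ σ : K ≃ₐ[k] K, ActsAs (algebraMap K Ω) (algebraMap M Ω) σ (toHom σ)

/-- The sections of `π₁(U) = Gal(F_U/F) → G_k`: the continuous homomorphisms `s` from
`G_k = Gal(k̄/k)` to `Gal(F_U/F)`, where `k̄` is the algebraic closure of `k` in `Ω`, such that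
`s(σ)` acts as `σ` on the elements of `k̄`. -/
def GaloisSection (U : Set (ValuationSubring F)) : Type w :=
  Splitting k F Ω (algebraicClosure k Ω) (unramified F Ω U)

end definitions

section curve

variable {K : Type u} [Field K]

/-- The norm form `∏_ρ (A₀(ρ) x₀ + A₁(ρ) x₁ + A₂(ρ) x₂)` at a vector with entries in an algebraically
closed field `Ω` over `K`: the product over the roots `ρ` of `h` in `Ω`, with multiplicities. -/
noncomputable def normForm {Ω : Type*} [Field Ω] [Algebra K Ω] (h : K[X]) (A : Fin 3 → K[X])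
    (x : Fin 3 → Ω) : Ω :=
  ((h.aroots Ω).map fun ρ => ∑ j, aeval ρ (A j) * x j).prod

/-- The equation `∏_ρ (A₀(ρ) x₀ + A₁(ρ) x₁ + A₂(ρ) x₂) = a Q(x₀, x₁, x₂)ⁿ` at a vector with entries in
an algebraically closed field `Ω` over `K`. -/
def OnCurve {Ω : Type*} [Field Ω] [Algebra K Ω] (h : K[X]) (A : Fin 3 → K[X]) (a : K)
    (Q : MvPolynomial (Fin 3) K) (n : ℕ) (x : Fin 3 → Ω) : Prop :=
  normForm h A x = algebraMap K Ω a * MvPolynomial.aeval x Q ^ n

/-- The form `Q` does not vanish at the points of intersection of two of the lines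
`A₀(ρ) x₀ + A₁(ρ) x₁ + A₂(ρ) x₂ = 0` for different roots `ρ` of `h`.  (In particular these lines are
different.) -/
def Transversal (h : K[X]) (A : Fin 3 → K[X]) (Q : MvPolynomial (Fin 3) K) : Prop :=
  ∀ ρ ρ' : AlgebraicClosure K, aeval ρ h = 0 → aeval ρ' h = 0 → ρ ≠ ρ' →
    MvPolynomial.aeval (crossProduct (fun j => aeval ρ (A j)) (fun j => aeval ρ' (A j))) Q ≠ 0

/-- The curve has no point over `L`. -/
def NoPoint (L : Type y) [Field L] [Algebra K L] (h : K[X]) (A : Fin 3 → K[X]) (a : K)
    (Q : MvPolynomial (Fin 3) K) (n : ℕ) : Prop :=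
  ∀ x : Fin 3 → L, x ≠ 0 → ¬ OnCurve h A a Q n fun j => algebraMap L (AlgebraicClosure L) (x j)

/-- Let `F` be any field over `L` that contains a point of the curve, for instance the function field
of the curve over `L`, and let `Ω` be an algebraic closure of `F`.  Then for every set `U` of
valuation rings of `F` over `L` there is no section of `π₁(U) → G_L`.  If `F` is the function field of
the curve, such `U` are given by its normalisation and by all its open subcurves. -/
def NoSection (L : Type y) [Field L] [Algebra K L] (h : K[X]) (A : Fin 3 → K[X]) (a : K)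
    (Q : MvPolynomial (Fin 3) K) (n : ℕ) : Prop :=
  ∀ (F : Type v) (Ω : Type w) [Field F] [Field Ω] [Algebra L F] [Algebra F Ω] [Algebra L Ω]
    [Algebra K Ω] [IsScalarTower L F Ω] [IsScalarTower K L Ω] [IsAlgClosure F Ω] (x : Fin 3 → F)
    (U : Set (ValuationSubring F)), x ≠ 0 → OnCurve h A a Q n (fun j => algebraMap F Ω (x j)) →
      (∀ O ∈ U, ∀ c : L, algebraMap L F c ∈ O) → IsEmpty (GaloisSection L F Ω U)

/-- All the assertions for the polynomial `h`, the numbers `D` and `a`: for all finite extensions `L` of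
`K` such that `D` does not divide `[L : K]`, all `n | deg h` divisible by `D`, all `A₀, A₁, A₂ ∈ K[T]` and
all forms `Q` of degree `(deg h)/n` over `K` that do not vanish at the points of intersection of the
conjugate lines, the curve `∏_ρ (A₀(ρ) x₀ + A₁(ρ) x₁ + A₂(ρ) x₂) = a Qⁿ` has no point and no section
over `L`. -/
def NothingOver (D : ℕ) (h : K[X]) (a : K) : Prop :=
  ∀ (L : Type y) [Field L] [Algebra K L] [FiniteDimensional K L],
    ¬ D ∣ Module.finrank K L → ∀ n q : ℕ, D ∣ n → n * q = h.natDegree →
      ∀ (A : Fin 3 → K[X]) (Q : MvPolynomial (Fin 3) K), Q.IsHomogeneous q → Transversal h A Q →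
        NoPoint L h A a Q n ∧ NoSection.{u, v, w} L h A a Q n

end curve

section families

/-- The value of a polynomial over `O_K` at an element of the algebraic closure of `K`. -/
noncomputable def valueAt {K : Type u} [Field K] (θ : AlgebraicClosure K) :
    (𝓞 K)[X] →+* AlgebraicClosure K :=
  eval₂RingHom ((algebraMap K (AlgebraicClosure K)).comp (algebraMap (𝓞 K) K)) θ

/-- The condition on a one-parameter family `(b(t), H(t, T))`: `b` has a simple root `θ` in `K̄` at which
the leading coefficient of `H` (as a polynomial in `T`) is not zero and `H(θ, T)` is separable, and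
there is an automorphism `σ` of `K̄` over `K(θ)` all of whose cycles on the roots of `H(θ, T)` have
lengths divisible by `N`. -/
def Cyclic {K : Type u} [Field K] (N : ℕ) (b : (𝓞 K)[X]) (H : (𝓞 K)[X][X]) : Prop :=
  ∃ (θ : AlgebraicClosure K) (σ : AlgebraicClosure K ≃ₐ[K] AlgebraicClosure K),
    valueAt θ b = 0 ∧ valueAt θ (derivative b) ≠ 0 ∧ valueAt θ H.leadingCoeff ≠ 0 ∧
    (H.map (valueAt θ)).Separable ∧ σ θ = θ ∧
    ∀ ρ, (H.map (valueAt θ)).eval ρ = 0 → ∀ m : ℕ, (σ ^ m) ρ = ρ → N ∣ m

/-- The `t ∈ O_K` for which the assertions are not all true for the curves given by `H(t, T)` and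
`b(t)`. -/
def ExceptionalParameters {K : Type u} [Field K] (D : ℕ) (b : (𝓞 K)[X]) (H : (𝓞 K)[X][X]) :
    Set (Fin 1 → 𝓞 K) :=
  {t | ¬ NothingOver.{u, v, w, y} D ((H.map (evalRingHom (t 0))).map (algebraMap (𝓞 K) K))
    ((b.eval (t 0) : 𝓞 K) : K)}

/-- The polynomial `c₁ + c₂ T + … + c_{d+1} T^d` over `K`, for a vector `(c₀, …, c_{d+1})` of integers
of `K`. -/
noncomputable def poly {K : Type u} [Field K] {d : ℕ} (c : Fin (d + 2) → 𝓞 K) : K[X] :=
  ∑ i : Fin (d + 1), C (c i.succ : K) * X ^ (i : ℕ)

/-- The vectors `c = (a, h₀, …, h_d)` of integers of `K` that do not have the following property: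
the polynomial `h = h₀ + … + h_d T^d` is irreducible of degree `d` over `K`, and all the assertions
are true for the curves given by `h` and `a`. -/
def ExceptionalVectors (K : Type u) [Field K] (D d : ℕ) : Set (Fin (d + 2) → 𝓞 K) :=
  {c | ¬ (Irreducible (poly c) ∧ (poly c).natDegree = d ∧
    NothingOver.{u, v, w, y} D (poly c) (c 0 : K))}

/-- Density zero: for every `ε > 0` there is an ideal `I ≠ 0` such that `E` lies in at most
`ε #(O_K/I)ᴺ` residue classes modulo `I`. -/
def DensityZero {K : Type u} [Field K] {N : ℕ} (E : Set (Fin N → 𝓞 K)) : Prop :=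
  ∀ ε : ℝ, 0 < ε → ∃ I : Ideal (𝓞 K), I ≠ ⊥ ∧
    (Set.ncard ((fun (t : Fin N → 𝓞 K) i => Ideal.Quotient.mk I (t i)) '' E) : ℝ) ≤
      ε * (Nat.card (𝓞 K ⧸ I) : ℝ) ^ N

/-- The vectors all of whose entries have coordinates of absolute value at most `B` in the integral
basis `ω`. -/
def Box {K : Type u} [Field K] {J : Type z} (ω : Module.Basis J ℤ (𝓞 K)) (N B : ℕ) :
    Set (Fin N → 𝓞 K) :=
  {c | ∀ i j, |ω.repr (c i) j| ≤ (B : ℤ)}

/-- Density zero in both senses: modulo ideals, and in boxes with respect to all integral bases. -/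
def Sparse {K : Type u} [Field K] {N : ℕ} (E : Set (Fin N → 𝓞 K)) : Prop :=
  DensityZero E ∧ ∀ (J : Type z) [Fintype J] (ω : Module.Basis J ℤ (𝓞 K)),
    Tendsto (fun B : ℕ => ((E ∩ Box ω N B).ncard : ℝ) / ((Box ω N B).ncard : ℝ)) atTop (𝓝 0)

end families

section proof

open IsDedekindDomain Pool.Agent.TH377.Dyn Pool.Agent.TH377.Sup Pool.Agent.TH120.Sec
  Pool.Agent.Run7.h551.NC

lemma toSec {k : Type u} {F : Type v} {Ω : Type w} [Field k] [Field F] [Field Ω] [Algebra k F]
    [Algebra F Ω] [Algebra k Ω] (U : Set (ValuationSubring F))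
    (h : IsEmpty (Pool.Agent.W620.SC.GSection k F Ω U)) : IsEmpty (GaloisSection k F Ω U) :=
  ⟨fun s => h.false ⟨s.toHom, s.cont, s.compat⟩⟩

lemma sparse_of {K : Type u} [Field K] [NumberField K] {N : ℕ} (E : Set (Fin N → 𝓞 K))
    (h : DZ N E) : Sparse.{u, z} E :=
  ⟨h, fun _ _ ω => box_tendsto E h ω⟩

/-- the assertions, given a good prime -/
theorem at_place {K : Type u} [Field K] [NumberField K] (v : HeightOneSpectrum (𝓞 K))
    (P : (𝓞 K)[X]) (hlc : P.leadingCoeff ∉ v.asIdeal)
    (hsep : (P.map (Ideal.Quotient.mk v.asIdeal)).Separable) (D : ℕ) (hD : D ≠ 0)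
    (hN : FacV v (Nat.gcd 2 D * D) P) (hdeg : P.natDegree ≠ 0) (b : 𝓞 K) (hb : b ∈ v.asIdeal)
    (hb' : b ∉ v.asIdeal ^ 2) :
    NothingOver.{u, v, w, y} D (P.map (algebraMap (𝓞 K) K)) (b : K) := by
  intro L _ _ _ hL n q hDn hnq A Q hQ htr
  obtain ⟨R, _, _, _, _, _, g, c, hc, hg, hgK, hgs, hgf, -, hval⟩ :=
    nf_local v P hlc hsep (Nat.gcd 2 D * D) hN
  obtain ⟨ϖ, t, hϖ, ht, hbt⟩ := hval b hb hb'
  have hdeg' : (P.map (algebraMap (𝓞 K) K)).natDegree ≠ 0 := by
    rwa [natDegree_map_eq_of_injective (FaithfulSMul.algebraMap_injective (𝓞 K) K)]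
  have hm : ¬ (D : ℤ) ∣ 1 * Module.finrank K L := by
    rw [one_mul, Int.natCast_dvd_natCast]
    exact hL
  obtain ⟨key1, key2⟩ := alg_both (K := K) (L := L) D hD (P.map (algebraMap (𝓞 K) K)) c hc g hg
    hgK hgs hgf ϖ t hϖ ht 1 hm (b : K) hbt n q hDn hnq hdeg' A Q hQ htr
  refine ⟨fun x hx hon => key1 x hx hon, ?_⟩
  intro F Ω _ _ _ _ _ _ _ _ _ x U hx hon hU
  exact toSec U (key2 F Ω x U hx hon hU)

/-- (1) -/
theorem parameters {K : Type u} [Field K] [NumberField K] (D : ℕ) (hD : 2 ≤ D) (b : (𝓞 K)[X])
    (H : (𝓞 K)[X][X]) (hdeg : H.natDegree ≠ 0) (h : Cyclic (Nat.gcd 2 D * D) b H) :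
    DZ 1 (ExceptionalParameters.{u, v, w, y} D b H) := by
  have hN3 : 3 ≤ Nat.gcd 2 D * D := by
    rcases Nat.lt_or_ge 2 D with h1 | h1
    · have h2 : 1 ≤ Nat.gcd 2 D := Nat.gcd_pos_of_pos_left _ (by norm_num)
      nlinarith
    · have h2 : D = 2 := le_antisymm h1 hD
      subst h2
      decide
  obtain ⟨θ, σ, h1, h2, h3, h4, h5, h6⟩ := h
  have hs : Spc (Nat.gcd 2 D * D) b H θ σ := by
    refine ⟨h1, h2, h3, h4, h5, ?_, ?_⟩
    · intro ρ hρ hσ
      have h7 := h6 ρ hρ 1 (by rw [pow_one]; exact hσ)
      have h8 := Nat.le_of_dvd one_pos h7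
      omega
    · intro _ m hm ρ hρ hσ
      refine hm (h6 ρ hρ m ?_)
      rw [AlgEquiv.coe_pow]
      exact hσ
  refine Pool.Agent.TH377.Dyn.DZ.mono (Pool.Agent.TH377.NC.fam_dz1 (Nat.gcd 2 D * D) b H θ σ hs
    {t | ∀ v : HeightOneSpectrum (𝓞 K), ¬ (b.eval t ∈ v.asIdeal ∧ b.eval t ∉ v.asIdeal ^ 2 ∧
      Loc v (Nat.gcd 2 D * D) H.natDegree (H.map (evalRingHom t)))} (fun t ht => ht)) ?_
  intro t ht v hv
  obtain ⟨g1, g2, g3⟩ := hv
  apply ht
  refine at_place v (H.map (evalRingHom (t 0))) g3.2.1 g3.2.2.1 D (by omega)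
    (facV_of_loc v _ (by omega) _ _ g3) ?_ _ g1 g2
  rw [g3.1]
  exact hdeg

/-- (2) -/
theorem vectors {K : Type u} [Field K] [NumberField K] (D : ℕ) (hD : 2 ≤ D) (d : ℕ) (hd : 0 < d)
    (hNd : Nat.gcd 2 D * D ∣ d) : DZ (d + 2) (ExceptionalVectors.{u, v, w, y} K D d) := by
  have hd2 : 2 ≤ d := by
    have h1 := Nat.le_of_dvd hd hNd
    have h2 : 1 ≤ Nat.gcd 2 D := Nat.gcd_pos_of_pos_left _ (by norm_num)
    nlinarith
  refine Pool.Agent.TH377.Dyn.DZ.mono (dz_prime K d hd2 1 one_ne_zero) ?_
  intro c hc hex
  obtain ⟨v, -, h1, h2, h3⟩ := hex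
  apply hc
  have hmax : v.asIdeal.IsMaximal := v.isMaximal
  have hpoly : poly c = (num c).map (algebraMap (𝓞 K) K) := by
    rw [num, pol_map]
    rfl
  obtain ⟨g1, g2, g3⟩ := num_facts c v h3
  have hN : FacV v (Nat.gcd 2 D * D) (num c) := facV_of_irr v _ _ g2 g3 (by rw [g1]; exact hNd)
  have hsep : ((num c).map (Ideal.Quotient.mk v.asIdeal)).Separable := by
    let _ : Field (𝓞 K ⧸ v.asIdeal) := Ideal.Quotient.field _
    have hfin : Finite (𝓞 K ⧸ v.asIdeal) := Ideal.finiteQuotientOfFreeOfNeBot _ v.ne_bot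
    exact PerfectField.separable_of_irreducible g3
  obtain ⟨R, _, _, _, _, _, g, e, -, -, -, -, -, hirr, -⟩ := nf_local v (num c) g2 hsep _ hN
  refine ⟨?_, ?_, ?_⟩
  · rw [hpoly]
    exact hirr g3
  · rw [hpoly, natDegree_map_eq_of_injective (FaithfulSMul.algebraMap_injective (𝓞 K) K)]
    exact g1
  · rw [hpoly]
    exact at_place v (num c) g2 hsep D (by omega) hN (by rw [g1]; omega) _ h1 h2

end proof

/-- **Norm form curves for varying fields.**  Let `K` be a number field, `D ≥ 2` and `N = gcd(2, D) D`.
(1) Let `b ∈ O_K[t]` and `H ∈ O_K[t][T]` of positive degree in `T` have the property `Cyclic N`.  Then for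
all `t ∈ O_K` outside a set of density zero, for all finite extensions `L/K` with `D ∤ [L : K]`, all
`n | deg H_t` divisible by `D`, all `A_j ∈ K[T]` and all `Q` transversal to them, the curve
`∏_ρ (A₀(ρ) x₀ + A₁(ρ) x₁ + A₂(ρ) x₂) = b(t) Qⁿ`, `ρ` a root of `H(t, T)`, has no point and no section
over `L`.  (2) If `N` divides `d > 0`, then for all vectors `(a, h₀, …, h_d) ∈ O_K^(d+2)` outside a set of
density zero, `h = h₀ + … + h_d T^d` is irreducible of degree `d`, and the same is true for the curves
`N_{E/K}(A₀ x₀ + A₁ x₁ + A₂ x₂) = a Qⁿ`, `E = K[T]/(h)`. -/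
theorem result (K : Type u) [Field K] [NumberField K] (D : ℕ) (hD : 2 ≤ D) :
    (∀ (b : (𝓞 K)[X]) (H : (𝓞 K)[X][X]), H.natDegree ≠ 0 → Cyclic (Nat.gcd 2 D * D) b H →
      Sparse.{u, z} (ExceptionalParameters.{u, v, w, y} D b H)) ∧
    ∀ d : ℕ, 0 < d → Nat.gcd 2 D * D ∣ d →
      Sparse.{u, z} (ExceptionalVectors.{u, v, w, y} K D d) :=
  ⟨fun b H hdeg h => sparse_of _ (parameters D hD b H hdeg h),
    fun d hd hNd => sparse_of _ (vectors D hD d hd hNd)⟩

end Pool.Agent.Results.MP_c1dca2_ag.NormCurvesVaryingFields
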